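import Pool.Agent.H72.PNF.S2
import Pool.Agent.H70.HYP.NMU

/-!
# PNF: row IRDN
-/

set_option autoImplicit false

namespace Pool.PNF

open Polynomial Matrix NumberField IsDedekindDomain Pool.HYP Pool.TOW Pool.AVS Pool.T1 Pool.NF
  Pool.PRK

/-- **IRDN.** -/
theorem irdn (h1 : IRLKStmt) (h2 : INOKStmt) : IRDNStmt := by
  intro K _ _ D Y hD f hf d hd α hcop hNs P hP ϖ L _ O' ι hC
  have hfm := hf.1
  have hfd := hf.2.1
  have hT' := hf.2.2.2.2
  have hcop' : IsCoprime (α.map ι) ((fk K f).map ι) := hcop.map (mapRingHom ι)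
  have hN' : NSq ((fk K f).map ι) (α.map ι) := by
    unfold NSq
    rw [nmu.2.2.2 K L ι (fk K f) α (hfm.map _)]
    exact hNs.map ι
  have hfm' : ((fk K f).map ι).Monic := (hfm.map _).map _
  have hfd' : ((fk K f).map ι).natDegree = 3 := by
    rw [(hfm.map _).natDegree_map, hfm.natDegree_map, hfd]
  have hodd : Odd ((fk K f).map ι).natDegree := by rw [hfd']; exact ⟨1, rfl⟩
  obtain ⟨fO, hm, hdd, ho, -, -, h3, -, -⟩ := h2 (𝓞 K) K P ϖ L O' ι hC f hfm
  obtain ⟨s, hs⟩ := h1 L O' _ hC.loc hC.cpl.complete _ 1 fO _ hfm' hodd one_ne_zero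
    (by rw [scaleRoots_one]; exact ho.symm)
    (h3 (D.ρ P) 3 (hD.2.2.1 P hP) (hT' P hP)) hcop' hN'
  have hcs : IsCoprime (s ^ 2) ((fk K f).map ι) := by
    obtain ⟨A, hA⟩ := hs
    have e : s ^ 2 = α.map ι + (fk K f).map ι * (-A) := by linear_combination -hA
    rw [e]
    exact hcop'.add_mul_left_left _
  have hcs1 : IsCoprime s ((fk K f).map ι) := hcs.of_isCoprime_of_dvd_left (dvd_pow_self s two_ne_zero)
  obtain ⟨t, r, htr⟩ := hcs1
  refine ⟨1, 0, t, monic_one, isCoprime_one_left, one_dvd _, ?_⟩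
  have e0 : HYP.kap ((1 : L[X]).comp (C (ι (algebraMap (𝓞 K) K d)) * X)) = 1 := by
    rw [one_comp]
    unfold HYP.kap
    rw [natDegree_one, pow_zero, one_mul]
  rw [e0]
  obtain ⟨A, hA⟩ := hs
  refine ⟨r * (1 + t * s) - A * t ^ 2, ?_⟩
  linear_combination -(t ^ 2) * hA - (1 + t * s) * htr

end Pool.PNF
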